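import Pool.Agent.Run7.h568.MC.Iface2
import Pool.Agent.Run7.h568.MC.GA
import Pool.Agent.Run7.h568.MC.Gb
import Pool.Agent.Run7.h568.MC.LIN1

/-!
# MP_a29257_gt, piece DOM

Linear coordinates of metrics lie in `Dom`, and `W0` meets `Dom`.
-/

namespace Run7.h467.MC

open Run7.h568.MC
open Real Matrix Function Run7.h568.MC.Pattern

variable {V : Type*} [Fintype V] {P : Pattern V}

/-! ### Cycles -/

theorem iterate_fact {α : Type*} [Fintype α] (f : α → α) (hf : Bijective f) (x : α) :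
    f^[(Fintype.card α).factorial] x = x := by
  classical
  have h := pow_card_eq_one (x := Equiv.ofBijective f hf)
  rw [Fintype.card_perm] at h
  have h2 := congrArg (fun e : Equiv.Perm α => e x) h
  simp only [Equiv.Perm.coe_one, id] at h2
  rw [Equiv.Perm.coe_pow] at h2
  exact h2

theorem ZA_per (z : P.Z) : ZA^[per P] z = z := iterate_fact ZA ZA_bijective z

theorem sum_cycle {α : Type*} (f : α → α) (M : ℕ) (G : α → ℝ) (x : α) (h : f^[M] x = x) :
    ∑ i ∈ Finset.range M, (G (f^[i + 1] x) - G (f^[i] x)) = 0 := by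
  rw [Finset.sum_range_sub (fun i => G (f^[i] x)), h]
  simp

theorem exists_Zh_inl (n : ℕ) : ∀ p : V, ¬ P.Quad (P.A^[n] p) →
    ∃ i : ℕ, Zh (ZA^[i] (Sum.inl p : P.Z)) := by
  induction n with
  | zero => exact fun p h => ⟨0, h⟩
  | succ n ih =>
    intro p h
    by_cases hq : P.Quad p
    · rw [Function.iterate_succ_apply] at h
      obtain ⟨i, hi⟩ := ih (P.A p) h
      refine ⟨i + 1, ?_⟩
      rw [Function.iterate_succ_apply, ZA_inl_not (not_diag_of_quad hq)]
      exact hi
    · exact ⟨0, hq⟩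

theorem exists_Zh (z : P.Z) : ∃ i < per P, Zh (ZA^[i] z) := by
  have h : ∃ i : ℕ, Zh (ZA^[i] z) := by
    rcases z with p | p
    · obtain ⟨n, hn⟩ := P.alpha_face' p
      exact exists_Zh_inl n p hn
    · exact ⟨0, trivial⟩
  obtain ⟨i, hi⟩ := h
  have hp : Function.IsPeriodicPt ZA (per P) z := ZA_per z
  refine ⟨i % per P, Nat.mod_lt _ (Nat.factorial_pos _), ?_⟩
  rw [hp.iterate_mod_apply]
  exact hi

/-! ### Openness -/

theorem isOpen_Dom : IsOpen (Dom P) := by
  have h : Dom P = ⋂ z : P.Z, {v | cyc P v z < 0} := by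
    ext v; simp [Dom]
  rw [h]
  refine isOpen_iInter_of_finite fun z => ?_
  refine isOpen_lt ?_ continuous_const
  unfold cyc
  refine continuous_finsetSum _ fun i _ => ?_
  split_ifs
  · exact (continuous_apply _).comp continuous_fst
  · exact continuous_const

/-! ### Metrics -/

theorem lin_mem_Dom (m : HypMetric P) : m.lin ∈ Dom P := by
  have hg : GF m := GA P m
  have hz : GFZ m := gb P m hg
  intro z
  have h1 : ∀ y : P.Z, (if Zh y then m.lZ (ZA y) else 0) =
      (m.U (ZA y) - m.U y) - (if Zh y then Real.log (m.muZ y) else 0) := by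
    intro y
    by_cases h : Zh y
    · rw [if_pos h, if_pos h, log_muZ hz h, U_ZA hz h]
      ring
    · rw [if_neg h, if_neg h, U_ZA_not h]
      ring
  have h2 : cyc P m.lin z = ∑ i ∈ Finset.range (per P), ((m.U (ZA^[i + 1] z) - m.U (ZA^[i] z)) -
      (if Zh (ZA^[i] z) then Real.log (m.muZ (ZA^[i] z)) else 0)) := by
    unfold cyc
    refine Finset.sum_congr rfl fun i _ => ?_
    have := h1 (ZA^[i] z)
    rw [← Function.iterate_succ_apply' ZA i z] at this
    exact this
  rw [h2, Finset.sum_sub_distrib, sum_cycle ZA (per P) m.U z (ZA_per z), zero_sub, neg_lt_zero]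
  obtain ⟨i, hi, hzi⟩ := exists_Zh z
  refine Finset.sum_pos' (fun j _ => ?_) ⟨i, Finset.mem_range.2 hi, ?_⟩
  · split_ifs with h
    · exact (Real.log_pos (hz.muZ_gt _ h)).le
    · exact le_refl _
  · rw [if_pos hzi]
    exact Real.log_pos (hz.muZ_gt _ hzi)

/-! ### A point of `W0 ∩ Dom` -/

/-- number of ends of leaves between `p` and `A p` -/
noncomputable def h1 (P : Pattern V) (p : V) : ℝ :=
  (if P.Quad p then 0 else 1) + (if P.Diag p then 1 else 0)

theorem h1_nonneg (p : V) : 0 ≤ h1 P p := by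
  unfold h1; split_ifs <;> norm_num

theorem h1_pos {p : V} (h : ¬ P.Quad p) : 0 < h1 P p := by
  unfold h1
  rw [if_neg h]
  split_ifs <;> norm_num

/-- a common period of `A` -/
noncomputable def perV (V : Type*) [Fintype V] : ℕ := (Fintype.card V).factorial

theorem perV_pos : 0 < perV V := Nat.factorial_pos _

theorem A_per (p : V) : P.A^[perV V] p = p := iterate_fact P.A P.A_bij p

theorem sum_shift {α : Type*} (f : α → α) (M : ℕ) (G : α → ℝ) (x : α) (h : f^[M] x = x) :
    ∑ i ∈ Finset.range M, G (f^[i] (f x)) = ∑ i ∈ Finset.range M, G (f^[i] x) := by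
  have h1 := sum_cycle f M G x h
  rw [Finset.sum_sub_distrib, sub_eq_zero] at h1
  rw [← h1]
  rfl

/-- number of ends of leaves on a side of `α`, in `perV` steps -/
noncomputable def HH (P : Pattern V) (p : V) : ℝ := ∑ i ∈ Finset.range (perV V), h1 P (P.A^[i] p)

theorem HH_A (p : V) : HH P (P.A p) = HH P p := sum_shift P.A (perV V) (h1 P) p (A_per p)

theorem HH_pos (p : V) : 0 < HH P p := by
  obtain ⟨n, hn⟩ := P.alpha_face' p
  have hp : Function.IsPeriodicPt P.A (perV V) p := A_per p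
  refine Finset.sum_pos' (fun j _ => h1_nonneg _) ⟨n % perV V,
    Finset.mem_range.2 (Nat.mod_lt _ perV_pos), h1_pos ?_⟩
  rw [hp.iterate_mod_apply]
  exact hn

/-- weights on the sides of `α` -/
noncomputable def cc (P : Pattern V) : P.Z → ℝ := fun z => (HH P (Zb z))⁻¹

theorem cc_pos (z : P.Z) : 0 < cc P z := inv_pos.2 (HH_pos _)

theorem cc_ZA (z : P.Z) : cc P (ZA z) = cc P z := by
  unfold cc
  rcases z with p | p
  · by_cases h : P.Diag p
    · rw [ZA_inl_diag h]; rfl
    · rw [ZA_inl_not h]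
      change (HH P (P.A p))⁻¹ = (HH P p)⁻¹
      rw [HH_A]
  · rw [ZA_inr]
    change (HH P (P.A p))⁻¹ = (HH P p)⁻¹
    rw [HH_A]

/-- the first element with `Zh` -/
noncomputable def topZ : P.Z → P.Z
  | Sum.inl p => Sum.inl (P.top p)
  | Sum.inr p => Sum.inr p

theorem topZ_of {z : P.Z} (h : Zh z) : topZ z = z := by
  rcases z with p | p
  · change (Sum.inl (P.top p) : P.Z) = _
    rw [P.top_of_not_quad h]
  · rfl

theorem topZ_ZA {z : P.Z} (h : ¬ Zh z) : topZ (ZA z) = topZ z := by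
  rcases z with p | p
  · have hq : P.Quad p := not_not.1 h
    rw [ZA_inl_not (not_diag_of_quad hq)]
    change (Sum.inl (P.top (P.A p)) : P.Z) = Sum.inl (P.top p)
    rw [← P.top_of_quad hq]
  · exact absurd trivial h

theorem ZA_Zk_ZA {z : P.Z} (h : ¬ Zh z) : ZA (Zk (ZA z)) = Zk z ∧ ¬ Zh (Zk (ZA z)) := by
  rcases z with p | p
  · have hq : P.Quad p := not_not.1 h
    have hq2 : P.Quad (P.tau p) := P.quad_tau.2 hq
    rw [ZA_inl_not (not_diag_of_quad hq), Zk_inl, P.kap_A, ZA_inl_not (not_diag_of_quad hq2),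
      P.quad_A_kap hq, Zk_inl]
    exact ⟨rfl, not_not.2 hq2⟩
  · exact absurd trivial h

theorem Zt_Zt_Zt {z : P.Z} (h : Zh z) : Zt (Zt (Zt z)) = z := by
  rcases z with p | p
  · rcases P.hex_or_oct h with hh | ho
    · have n1 := not_diag_of_hex hh
      have n2 := not_diag_of_hex (P.hex_tau.2 hh)
      have n3 := not_diag_of_hex (P.hex_tau.2 (P.hex_tau.2 hh))
      rw [Zt_inl_not n1, Zt_inl_not n2, Zt_inl_not n3]
      congr 1
    · by_cases hd : P.Diag p
      · rw [Zt_inl_diag hd, Zt_inr]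
        have h3 : ¬ P.Diag (P.tau (P.tau (P.tau p))) := fun hh =>
          (P.diag_tau (P.oct_tau.2 (P.oct_tau.2 ho))).1 hh ((P.diag_tau_tau ho).2 hd)
        rw [Zt_inl_not h3]
        congr 1
        exact ho.1
      · have h2 : P.Diag (P.tau p) := (P.diag_tau ho).2 hd
        rw [Zt_inl_not hd, Zt_inl_diag h2, Zt_inr]
        congr 1
        exact ho.1
  · have ho := p.2.oct
    have h1 : ¬ P.Diag (P.tau (p : V)) := fun hh => (P.diag_tau ho).1 hh p.2
    have h2 : P.Diag (P.tau (P.tau (p : V))) := (P.diag_tau_tau ho).2 p.2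
    rw [Zt_inr, Zt_inl_not h1, Zt_inl_diag h2]
    congr 1
    exact Subtype.ext ho.1

/-- auxiliary function -/
noncomputable def GG (P : Pattern V) : P.Z → ℝ := fun z => cc P (Zt (topZ z))

/-- auxiliary function -/
noncomputable def KK (P : Pattern V) : P.Z → ℝ := fun z => cc P (Zk z)

/-- weights of the leaves -/
noncomputable def ll (P : Pattern V) : P.Z → ℝ := fun z =>
  -(1 / 2) * (2 * cc P z + 2 * cc P (Zk z) - GG P z - GG P (Zk z))

theorem GG_ZA (z : P.Z) : GG P (ZA z) - GG P z =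
    if Zh z then GG P (ZA z) - cc P (Zt z) else 0 := by
  split_ifs with h
  · unfold GG; rw [topZ_of h]
  · unfold GG; rw [topZ_ZA h, sub_self]

theorem KK_ZA (z : P.Z) : KK P (ZA z) - KK P z =
    if Zh z then cc P (Zt z) - cc P (Zk z) else 0 := by
  split_ifs with h
  · rfl
  · unfold KK
    rw [← (ZA_Zk_ZA h).1, cc_ZA, sub_self]

theorem cc_Zt_Zt {z : P.Z} (h : Zh z) : cc P (Zt (Zt z)) = cc P (Zk z) := by
  have h1 := Zt_Zt_Zt h
  have h2 : ZA (Zt (Zt z)) = Zk z := by
    conv_rhs => rw [← h1]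
    unfold Zt
    rw [Zk_Zk]
  rw [← cc_ZA, h2]

theorem ll_Zk (z : P.Z) : ll P (Zk z) = ll P z := by
  unfold ll; rw [Zk_Zk]; ring

theorem ll_ZA_not {z : P.Z} (h : ¬ Zh z) : ll P (ZA z) = ll P z := by
  obtain ⟨h1, h2⟩ := ZA_Zk_ZA h
  have h3 : GG P (ZA z) = GG P z := by unfold GG; rw [topZ_ZA h]
  have h4 : GG P (Zk (ZA z)) = GG P (Zk z) := by
    have : GG P (ZA (Zk (ZA z))) = GG P (Zk (ZA z)) := by unfold GG; rw [topZ_ZA h2]
    rw [← this, h1]
  have h5 : cc P (Zk (ZA z)) = cc P (Zk z) := by rw [← cc_ZA (Zk (ZA z)), h1]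
  unfold ll
  rw [h3, h4, h5, cc_ZA]

/-- the potential -/
noncomputable def Ga (P : Pattern V) : P.Z → ℝ := fun z => (GG P z - KK P z) / 2

theorem ll_step (z : P.Z) : (if Zh z then ll P (ZA z) else 0) =
    (Ga P (ZA z) - Ga P z) - (if Zh z then cc P z else 0) := by
  have hG := GG_ZA z
  have hK := KK_ZA z
  unfold Ga
  by_cases h : Zh z
  · rw [if_pos h] at hG hK ⊢
    rw [if_pos h]
    have h1 : GG P (Zk (ZA z)) = cc P (Zk z) := by
      change cc P (Zt (topZ (Zt z))) = _
      rw [topZ_of ((Zh_Zt z).2 h), cc_Zt_Zt h]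
    have h2 : cc P (Zk (ZA z)) = cc P (Zt z) := rfl
    unfold ll
    rw [h1, h2, cc_ZA]
    linarith
  · rw [if_neg h] at hG hK ⊢
    rw [if_neg h]
    linarith

theorem cyc_ll (w : V → ℝ) (z : P.Z) : cyc P (ll P, w) z < 0 := by
  have h2 : cyc P (ll P, w) z = ∑ i ∈ Finset.range (per P),
      ((Ga P (ZA^[i + 1] z) - Ga P (ZA^[i] z)) -
      (if Zh (ZA^[i] z) then cc P (ZA^[i] z) else 0)) := by
    unfold cyc
    refine Finset.sum_congr rfl fun i _ => ?_
    have := ll_step (ZA^[i] z)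
    rw [← Function.iterate_succ_apply' ZA i z] at this
    exact this
  rw [h2, Finset.sum_sub_distrib, sum_cycle ZA (per P) (Ga P) z (ZA_per z), zero_sub, neg_lt_zero]
  obtain ⟨i, hi, hzi⟩ := exists_Zh z
  refine Finset.sum_pos' (fun j _ => ?_) ⟨i, Finset.mem_range.2 hi, ?_⟩
  · split_ifs with h
    · exact (cc_pos _).le
    · exact le_refl _
  · rw [if_pos hzi]
    exact cc_pos _

/-- the total weight along an edge of `α` -/
theorem lad_ll (p : V) : lad (ll P) p =
    (Ga P (Sum.inl (P.A p)) - Ga P (Sum.inl p)) - cc P (Sum.inl p) * h1 P p := by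
  unfold lad
  by_cases hq : P.Quad p
  · have hd := not_diag_of_quad hq
    have h := ll_step (Sum.inl p : P.Z)
    have hz : ¬ Zh (Sum.inl p : P.Z) := not_not.2 hq
    rw [if_neg hz, if_neg hz, ZA_inl_not hd] at h
    rw [if_pos hq]
    unfold h1
    rw [if_pos hq, if_neg hd]
    linarith
  · rw [if_neg hq]
    have h := ll_step (Sum.inl p : P.Z)
    have hz : Zh (Sum.inl p : P.Z) := hq
    rw [if_pos hz, if_pos hz] at h
    unfold h1
    rw [if_neg hq]
    by_cases hd : P.Diag p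
    · rw [dif_pos hd, if_pos hd]
      rw [ZA_inl_diag hd] at h
      have h' := ll_step (Sum.inr ⟨p, hd⟩ : P.Z)
      rw [if_pos (Zh_inr _), if_pos (Zh_inr _), ZA_inr] at h'
      have e : cc P (Sum.inr ⟨p, hd⟩ : P.Z) = cc P (Sum.inl p) := rfl
      rw [e] at h'
      change ll P (Sum.inl (P.A p)) = _ at h'
      rw [h, h']
      ring
    · rw [dif_neg hd, if_neg hd]
      rw [ZA_inl_not hd] at h
      rw [h]
      ring

theorem sum_cc (p : V) :
    ∑ i ∈ Finset.range (perV V), cc P (Sum.inl (P.A^[i] p)) * h1 P (P.A^[i] p) = 1 := by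
  have h : ∀ i : ℕ, HH P (P.A^[i] p) = HH P p := by
    intro i
    induction i with
    | zero => rfl
    | succ i ih => rw [Function.iterate_succ_apply', HH_A, ih]
  have h2 : ∀ i ∈ Finset.range (perV V), cc P (Sum.inl (P.A^[i] p)) * h1 P (P.A^[i] p) =
      (HH P p)⁻¹ * h1 P (P.A^[i] p) := by
    intro i _
    change (HH P (P.A^[i] p))⁻¹ * _ = _
    rw [h]
  rw [Finset.sum_congr rfl h2, ← Finset.mul_sum]
  exact inv_mul_cancel₀ (HH_pos p).ne'

/-- the defect -/
noncomputable def ep (P : Pattern V) : V → ℝ := fun p =>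
  -(cc P (Sum.inl p) * h1 P p) + cc P (Sum.inl (P.iota p)) * h1 P (P.iota p)

theorem ep_iota (p : V) : ep P (P.iota p) = -ep P p := by
  unfold ep; rw [P.iota_iota]; ring

theorem iota_A_iter (i : ℕ) : ∀ p : V, P.A^[i] (P.iota (P.A^[i] p)) = P.iota p := by
  induction i with
  | zero => exact fun p => rfl
  | succ i ih =>
    intro p
    rw [Function.iterate_succ_apply, Function.iterate_succ_apply', P.A_iota, P.rho_A, ih]

theorem iota_A_iter' {i : ℕ} (hi : i ≤ perV V) (p : V) :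
    P.iota (P.A^[i] p) = P.A^[perV V - i] (P.iota p) := by
  have h := iota_A_iter (P := P) i p
  rw [← h, ← Function.iterate_add_apply, Nat.sub_add_cancel hi, A_per]

theorem sum_iota_side (g : V → ℝ) (p : V) :
    ∑ i ∈ Finset.range (perV V), g (P.iota (P.A^[i] p)) =
      ∑ i ∈ Finset.range (perV V), g (P.A^[i] (P.iota p)) := by
  rw [← sum_shift P.A (perV V) g (P.iota p) (A_per _),
    ← Finset.sum_range_reflect (fun j => g (P.A^[j] (P.A (P.iota p))))]
  refine Finset.sum_congr rfl fun i hi => ?_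
  have hi' := Finset.mem_range.1 hi
  rw [iota_A_iter' hi'.le, ← Function.iterate_succ_apply]
  congr 2
  omega

theorem sum_ep (p : V) : ∑ i ∈ Finset.range (perV V), ep P (P.A^[i] p) = 0 := by
  unfold ep
  rw [Finset.sum_add_distrib, Finset.sum_neg_distrib, sum_cc]
  have h := sum_iota_side (P := P) (fun q => cc P (Sum.inl q) * h1 P q) p
  rw [sum_cc] at h
  rw [h]
  ring

/-- solution of `w0 ∘ A - w0 = ep` -/
noncomputable def w0 (P : Pattern V) : V → ℝ := fun p =>
  (1 / (perV V : ℝ)) * ∑ i ∈ Finset.range (perV V), (i : ℝ) * ep P (P.A^[i] p)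

theorem w0_A (p : V) : w0 P (P.A p) - w0 P p = ep P p := by
  have hM : (perV V : ℝ) ≠ 0 := by exact_mod_cast (perV_pos (V := V)).ne'
  have h0 : ∑ i ∈ Finset.range (perV V), ep P (P.A^[i + 1] p) = 0 := sum_ep (P.A p)
  have h2 := Finset.sum_range_succ' (fun i : ℕ => (i : ℝ) * ep P (P.A^[i] p)) (perV V)
  rw [Finset.sum_range_succ, A_per] at h2
  simp only [Nat.cast_zero, zero_mul, add_zero] at h2
  have h3 : ∑ i ∈ Finset.range (perV V), (i : ℝ) * ep P (P.A^[i] (P.A p)) =
      ∑ i ∈ Finset.range (perV V), (i : ℝ) * ep P (P.A^[i] p) + perV V * ep P p := by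
    rw [h2]
    have h4 : ∀ i ∈ Finset.range (perV V), (i : ℝ) * ep P (P.A^[i] (P.A p)) =
        ((i + 1 : ℕ) : ℝ) * ep P (P.A^[i + 1] p) - ep P (P.A^[i + 1] p) := by
      intro i _
      rw [Function.iterate_succ_apply]
      push_cast
      ring
    rw [Finset.sum_congr rfl h4, Finset.sum_sub_distrib, h0, sub_zero]
  unfold w0
  rw [h3]
  field_simp
  ring

/-- the weights of the crossings -/
noncomputable def ww (P : Pattern V) : V → ℝ := fun p =>
  Ga P (Sum.inl p) + Ga P (Sum.inl (P.rho p)) + (w0 P p + w0 P (P.rho p)) / 2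

theorem ww_rho (p : V) : ww P (P.rho p) = ww P p := by
  unfold ww; rw [P.rho_rho]; ring

theorem ww_A (p : V) : ww P (P.A p) - ww P p = lad (ll P) p - lad (ll P) (P.iota p) := by
  have e1 := w0_A (P := P) p
  have e2 := w0_A (P := P) (P.iota p)
  have e3 := ep_iota (P := P) p
  have e4 : ep P p = -(cc P (Sum.inl p) * h1 P p) +
    cc P (Sum.inl (P.iota p)) * h1 P (P.iota p) := rfl
  rw [lad_ll, lad_ll, P.A_iota]
  rw [P.A_iota] at e2
  unfold ww
  rw [P.rho_A]
  linarith

theorem mem_W0 : ((ll P, ww P) : P.W) ∈ W0 P :=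
  ⟨ll_Zk, fun _ h => ll_ZA_not h, ww_rho, ww_A⟩

end Run7.h467.MC

namespace Run7.h568.MC

universe v

/-- piece DOM -/
theorem dom {V : Type v} [Fintype V] (P : Pattern V) : S_DOM P :=
  ⟨Run7.h467.MC.isOpen_Dom, Run7.h467.MC.lin_mem_Dom,
    _, Run7.h467.MC.mem_W0, fun z => Run7.h467.MC.cyc_ll _ z⟩

end Run7.h568.MC
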